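import Pool.Agent.Q197.RT.Main

/-!
# MP_0308e6_nt: a zero-one law for the rational translates of `√2`
-/

set_option autoImplicit false

open Filter Topology

namespace Pool.Agent.Results.MP_0308e6_nt.RationalTranslates

/-- the digit of `x` in base `b` at the place `i + 1` after the point -/
noncomputable def digit (b : ℕ) (x : ℝ) (i : ℕ) : ℤ := ⌊x * (b : ℝ) ^ (i + 1)⌋ % (b : ℤ)

/-- among the first `N` digits of `x` in base `b` after the point, the fraction of those equal to `d`
tends to `f d`, for every digit `d` -/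
def HasFreq (b : ℕ) (x : ℝ) (f : Fin b → ℝ) : Prop :=
  ∀ d : Fin b, Tendsto (fun N : ℕ =>
    (((Finset.range N).filter (fun n => digit b x n = ((d : ℕ) : ℤ))).card : ℝ) / N) atTop (𝓝 (f d))

/-- simply normal in base `b` -/
def SimplyNormal (b : ℕ) (x : ℝ) : Prop := HasFreq b x (fun _ => 1 / b)

/-- normal in base `b`: every word of `k` digits has the frequency `b ^ (-k)` -/
def Normal (b : ℕ) (x : ℝ) : Prop :=
  ∀ k : ℕ, 0 < k → ∀ w : Fin k → Fin b,
    Tendsto (fun n : ℕ => (((Finset.range n).filter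
      (fun i : ℕ => ∀ j : Fin k, digit b x (i + (j : ℕ)) = (((w j : ℕ)) : ℤ))).card : ℝ) / (n : ℝ))
      atTop (𝓝 ((1 : ℝ) / (b : ℝ) ^ k))

open Classical in
/-- the number of `A < b ^ P - 1` such that the digits of `x + A / (b ^ P - 1)` in base `b` have the
frequencies `f` -/
noncomputable def count (b : ℕ) (x : ℝ) (f : Fin b → ℝ) (P : ℕ) : ℕ :=
  ((Finset.range (b ^ P - 1)).filter
    (fun A : ℕ => HasFreq b (x + (A : ℝ) / ((b : ℝ) ^ P - 1)) f)).card

/-- (1) If `x` is not normal in base `b`, then for every `P` and every vector `f` the proportion of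
`A < b ^ P - 1` for which `x + A / (b ^ P - 1)` has the digit frequencies `f` is at most
`C (1 + log P) / √P`.  (2) `x` is normal in base `b` if and only if `x + r` is simply normal in base
`b` for every rational `r`, and then all `x + r` are normal in base `b`.  (3) The bound is sharp up to
the logarithm: for `b = 2` and `x = 0` the proportion is at least `1 / (2 √(P / 2))` for even `P`.
(4) For every `b ≥ 2`, either all rational translates of `√2` are normal in base `b`, or the proportion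
of simply normal ones among the `√2 + A / (b ^ P - 1)` is at most `C (1 + log P) / √P`. -/
theorem result :
    (∀ b : ℕ, 2 ≤ b → ∀ x : ℝ, ¬ Normal b x → ∃ C : ℝ, ∀ P : ℕ, 1 ≤ P → ∀ f : Fin b → ℝ,
      (count b x f P : ℝ) ≤ C * ((1 + Real.log P) / √P) * ((b : ℝ) ^ P - 1)) ∧
    (∀ b : ℕ, 2 ≤ b → ∀ x : ℝ, (Normal b x ↔ ∀ r : ℚ, SimplyNormal b (x + r)) ∧
      (Normal b x → ∀ r : ℚ, Normal b (x + r))) ∧
    (∀ n : ℕ, 1 ≤ n → (2 : ℝ) ^ (2 * n) / (2 * √n) ≤ (count 2 0 (fun _ => 1 / 2) (2 * n) : ℝ)) ∧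
    (∀ b : ℕ, 2 ≤ b → (∀ r : ℚ, Normal b (√2 + r)) ∨ ∃ C : ℝ, ∀ P : ℕ, 1 ≤ P →
      (count b (√2) (fun _ => 1 / b) P : ℝ) ≤ C * ((1 + Real.log P) / √P) * ((b : ℝ) ^ P - 1)) := by
  refine ⟨fun b hb x hx => Q197.RT.few_translates hb hx,
    fun b hb x => ⟨Q197.RT.normal_iff hb x, fun h r => Q197.RT.wall hb h r⟩,
    fun n hn => Q197.RT.sharp n hn, fun b hb => ?_⟩
  by_cases h : Normal b (√2)
  · exact Or.inl fun r => Q197.RT.wall hb h r
  · right
    obtain ⟨C, hC⟩ := Q197.RT.few_translates hb h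
    exact ⟨C, fun P hP => hC P hP _⟩

end Pool.Agent.Results.MP_0308e6_nt.RationalTranslates
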