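import Mathlib
import Pool.Agent.Q263.CM.Alg

/-!
# Digits of the multiples of `√2` by integers with restricted digits

Let `x` be `√2` or any irrational real algebraic number. Choose for each `i < k` a set `D i` of at
least two digits in base `g` and consider the integers `m < g ^ k` whose `i`-th digit is in `D i`;
there may be as few as `2 ^ k` of them. For all but `ε` of these `m` the first `A k` digits of
`y + m x` in all bases `b ≤ B` contain all words with the right frequency up to `ε`, for every `A`.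
In particular nearly one half of the first `A k` binary digits of `m √2` are equal to one.

Proof. The exponential sum over these `m` at a frequency `G x` is a product of `k` factors, and one
has to find many `i < k` for which `g ^ i G x` is not close to an integer. For `G = h (b ^ u - b ^ v)`
with `u - v` at most a small multiple of `k` such `i` exist in all intervals of length `k / N` by
the subspace theorem. This is used for the second moments over short blocks of digits.
-/

set_option autoImplicit false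

open Finset

namespace Pool.Agent.Results.MP_0308e6_nt.RestrictedMultiples

/-- The integers less than `g ^ k` whose `i`-th digit in base `g` belongs to `D i` for `i < k`. -/
def Dig (g k : ℕ) (D : Fin k → Finset ℕ) : Finset ℕ :=
  (range (g ^ k)).filter (fun n => ∀ i : Fin k, n / g ^ (i : ℕ) % g ∈ D i)

/-- `D` consists of `k` sets of digits in base `g`, each with at least two elements. -/
def Digits (g k : ℕ) (D : Fin k → Finset ℕ) : Prop :=
  (∀ i, ∀ d ∈ D i, d < g) ∧ ∀ i, 2 ≤ (D i).card

/-- In every base `2 ≤ b ≤ P` and for every interval `[α, γ)` in `[0, 1]`, the number of the places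
`s ≤ i < s + N` with `α ≤ {b ^ i z} < γ` differs from `(γ - α) N` by at most `E`, for every window
with `s + N ≤ T`. For `α = j / b ^ w`, `γ = (j + 1) / b ^ w` these are the places in the expansion of
`z` in base `b` at which the word of `w` digits with value `j` stands, and `γ - α = b ^ (-w)`. -/
def NormalUpTo (P T E z : ℝ) : Prop :=
  ∀ b s N : ℕ, 2 ≤ b → (b : ℝ) ≤ P → (s : ℝ) + N ≤ T → ∀ α γ : ℝ, 0 ≤ α → α ≤ γ → γ ≤ 1 →
    |((((range N).filter (fun i : ℕ => α ≤ Int.fract ((b : ℝ) ^ (s + i) * z) ∧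
      Int.fract ((b : ℝ) ^ (s + i) * z) < γ)).card : ℕ) : ℝ) - (γ - α) * N| ≤ E

/-- `N₁(n)` for the number `z`: the number of ones among the first `n` binary digits of `z` after
the point. -/
noncomputable def ones (z : ℝ) (n : ℕ) : ℕ :=
  ((Icc 1 n).filter (fun i : ℕ => ⌊(2 : ℝ) ^ i * z⌋ % 2 = 1)).card

lemma digit_one (z : ℝ) (i : ℕ) : ⌊(2 : ℝ) ^ (i + 1) * z⌋ % 2 = 1 ↔
    1 / 2 ≤ Int.fract ((2 : ℝ) ^ (0 + i) * z) ∧ Int.fract ((2 : ℝ) ^ (0 + i) * z) < 1 := by
  rw [zero_add]
  set v := (2 : ℝ) ^ i * z with hv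
  have h0 : (2 : ℝ) ^ (i + 1) * z = 2 * Int.fract v + ((2 * ⌊v⌋ : ℤ) : ℝ) := by
    have h1 := Int.fract_add_floor v
    rw [pow_succ]
    push_cast
    linarith
  rw [h0, Int.floor_add_intCast]
  have h1 := Int.fract_nonneg v
  have h2 := Int.fract_lt_one v
  constructor
  · intro h
    refine ⟨?_, h2⟩
    by_contra hcon
    push Not at hcon
    have h3 : ⌊2 * Int.fract v⌋ = 0 := by
      rw [Int.floor_eq_iff]
      constructor
      · push_cast
        linarith
      · push_cast
        linarith
    rw [h3] at h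
    omega
  · rintro ⟨h3, _⟩
    have h4 : ⌊2 * Int.fract v⌋ = 1 := by
      rw [Int.floor_eq_iff]
      constructor
      · push_cast
        linarith
      · push_cast
        linarith
    rw [h4]
    omega

lemma ones_eq (z : ℝ) (n : ℕ) : ones z n = ((range n).filter (fun i : ℕ =>
    1 / 2 ≤ Int.fract ((2 : ℝ) ^ (0 + i) * z) ∧ Int.fract ((2 : ℝ) ^ (0 + i) * z) < 1)).card := by
  unfold ones
  symm
  apply Finset.card_bij (fun i _ => i + 1)
  · intro i hi
    rw [Finset.mem_filter, Finset.mem_range] at hi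
    rw [Finset.mem_filter, Finset.mem_Icc]
    exact ⟨by omega, (digit_one z i).2 hi.2⟩
  · intro i _ j _ h
    simpa using h
  · intro i hi
    rw [Finset.mem_filter, Finset.mem_Icc] at hi
    obtain ⟨j, rfl⟩ : ∃ j, i = j + 1 := ⟨i - 1, by omega⟩
    refine ⟨j, ?_, rfl⟩
    rw [Finset.mem_filter, Finset.mem_range]
    exact ⟨by omega, (digit_one z j).1 hi.2⟩

open Classical in
/-- **Theorem.** (1) Let `x` be an irrational real algebraic number, `g ≥ 2` and let `B`, `A` and
`ε > 0` be given. For all large `k`, all sets `D i`, `i < k`, of at least two digits in base `g`, and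
all real `y`: for all but the proportion `ε` of the integers `m` with the `k` digits in the sets
`D i`, the first `A k` digits of `y + m x` are normal up to the error `ε k` in all bases `b ≤ B`.
(2) In particular for all but the proportion `ε` of these `m` the number of ones among the first `n`
binary digits of `m √2` differs from `n / 2` by at most `ε k`, for all `n ≤ A k`. -/
theorem result :
    (∀ x : ℝ, IsAlgebraic ℚ x → Irrational x → ∀ g : ℕ, 2 ≤ g → ∀ B A ε : ℝ, 0 < ε →
      ∃ k₀ : ℕ, ∀ k : ℕ, k₀ ≤ k → ∀ D : Fin k → Finset ℕ, Digits g k D → ∀ y : ℝ,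
        (((Dig g k D).filter (fun m : ℕ =>
          ¬ NormalUpTo B (A * k) (ε * k) (y + m * x))).card : ℝ) ≤ ε * (Dig g k D).card) ∧
    (∀ g : ℕ, 2 ≤ g → ∀ A ε : ℝ, 0 < ε → ∃ k₀ : ℕ, ∀ k : ℕ, k₀ ≤ k →
      ∀ D : Fin k → Finset ℕ, Digits g k D →
        (((Dig g k D).filter (fun m : ℕ => ∃ n : ℕ, (n : ℝ) ≤ A * k ∧
          ε * k < |(ones (m * √2) n : ℝ) - n / 2|)).card : ℝ) ≤ ε * (Dig g k D).card) := by
  have h : ∀ x : ℝ, IsAlgebraic ℚ x → Irrational x → ∀ g : ℕ, 2 ≤ g → ∀ B A ε : ℝ, 0 < ε →
      ∃ k₀ : ℕ, ∀ k : ℕ, k₀ ≤ k → ∀ D : Fin k → Finset ℕ, Digits g k D → ∀ y : ℝ,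
        (((Dig g k D).filter (fun m : ℕ =>
          ¬ NormalUpTo B (A * k) (ε * k) (y + m * x))).card : ℝ) ≤ ε * (Dig g k D).card := by
    intro x halg hirr g hg B A ε hε
    obtain ⟨k₀, h⟩ := Pool.Agent.Q263.CM.alg_main x hirr halg hg B A ε hε
    exact ⟨k₀, fun k hk D hD y => h k hk D hD.1 hD.2 y⟩
  refine ⟨h, fun g hg A ε hε => ?_⟩
  have halg : IsAlgebraic ℚ √2 := by
    refine ⟨Polynomial.X ^ 2 - Polynomial.C 2, Polynomial.X_pow_sub_C_ne_zero (by norm_num) 2, ?_⟩
    rw [map_sub, map_pow, Polynomial.aeval_X, Polynomial.aeval_C, Real.sq_sqrt (by norm_num)]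
    simp
  obtain ⟨k₀, h1⟩ := h √2 halg irrational_sqrt_two g hg 2 A ε hε
  refine ⟨k₀, fun k hk D hD => le_trans ?_ (h1 k hk D hD 0)⟩
  have hsub : (Dig g k D).filter (fun m : ℕ => ∃ n : ℕ, (n : ℝ) ≤ A * k ∧
      ε * k < |(ones (m * √2) n : ℝ) - n / 2|) ⊆
      (Dig g k D).filter (fun m : ℕ => ¬ NormalUpTo 2 (A * k) (ε * k) (0 + m * √2)) := by
    intro m hm
    rw [Finset.mem_filter] at hm ⊢
    obtain ⟨hm1, n, hn, hlt⟩ := hm
    refine ⟨hm1, fun hN => ?_⟩
    have h2 := hN 2 0 n (le_refl 2) (by norm_num) (by push_cast; linarith) (1 / 2) 1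
      (by norm_num) (by norm_num) (le_refl 1)
    rw [zero_add] at h2
    have h3 := ones_eq (m * √2) n
    rw [h3] at hlt
    have e1 : ((1 : ℝ) - 1 / 2) * n = n / 2 := by ring
    rw [e1] at h2
    have h4 : (((2 : ℕ) : ℝ)) = 2 := by norm_num
    simp only [h4] at h2
    exact absurd h2 (not_le.2 hlt)
  exact_mod_cast Finset.card_le_card hsub

end Pool.Agent.Results.MP_0308e6_nt.RestrictedMultiples
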