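import Pool.Agent.Q270.AF.Tb

/-!
# The digits of the real roots of `P(x) = m` for almost all integers `m`

For almost all integers `m` (hence for almost all primes) the binary digits of `√m` are equally
distributed up to the place `(log m) ^ (1 + δ)`, farther than any multiple of `log m`, with the
discrepancy `√n (log m) ^ ε` of random digits in every window of `n` places. More is proved: outside one
exceptional set of at most `N exp (-(log N) ^ κ)` integers `m ≤ N` this holds for ALL the real
solutions `x` of all equations `P(x) = m` with integer polynomials `P` of degree between `2` and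
`(log N) ^ κ` and of height at most `exp ((log N) ^ κ)` (for example
`m ^ (1/k)`, `(a + √m) / c`, the real roots of `x ^ 3 + a x ^ 2 + b x + c = m`), for all the elements
`g(x)` of small height of the fields `ℚ(x)`, in all bases `b ≤ exp ((log N) ^ κ)` and all words.

Proof. The roots are the values of the inverse function of `P` at the integer `m`. After a scaling
the derivatives of `g(x(y))` are `S_j(x) / q'(x) ^ (2 j + 1)` with explicit polynomials `S_j`, which
are not small off a small set, and Vinogradov's method gives the exponential sums with the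
frequencies `B ≤ exp ((log N) ^ (1 + δ'))`. Moments of growing order then give the discrepancy
outside a set of `N exp (-(log N) ^ κ')` integers, small enough for the union over all `P`, `g`, `b`.
-/

set_option autoImplicit false

namespace Pool.Agent.Results.MP_0308e6_nt.RootsAtAlmostAllIntegers

open Polynomial Filter Topology

/-- the number of the places `j` with `s ≤ j < s + n` for which the fractional part of `b ^ j x` is
in `[u, v)` -/
noncomputable def cnt (x : ℝ) (b s n : ℕ) (u v : ℝ) : ℕ :=
  ((Finset.Ico s (s + n)).filter (fun j =>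
    u ≤ Int.fract ((b : ℝ) ^ j * x) ∧ Int.fract ((b : ℝ) ^ j * x) < v)).card

/-- **For almost all integers `m`, all real solutions of `P(x) = m`, for all integer polynomials
`P` of small height at once, are normal far beyond the size of `m`.** -/
theorem result : ∃ δ : ℝ, 0 < δ ∧ ∀ ε : ℝ, 0 < ε → ∃ κ : ℝ, 0 < κ ∧ ∀ᶠ N : ℕ in atTop,
    ∃ E : Finset ℕ, (E.card : ℝ) ≤ N * Real.exp (-(Real.log N) ^ κ) ∧
      ∀ m : ℕ, 1 ≤ m → m ≤ N → m ∉ E →
      ∀ P : ℤ[X], 2 ≤ P.natDegree → (P.natDegree : ℝ) ≤ (Real.log N) ^ κ →
        (∀ i, |(P.coeff i : ℝ)| ≤ Real.exp ((Real.log N) ^ κ)) →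
      ∀ x : ℝ, aeval x P = (m : ℝ) →
      ∀ g : ℚ[X], 1 ≤ g.natDegree → g.natDegree < P.natDegree →
        (∀ i, |((g.coeff i).num : ℝ)| ≤ Real.exp ((Real.log N) ^ κ) ∧
          ((g.coeff i).den : ℝ) ≤ Real.exp ((Real.log N) ^ κ)) →
      ∀ b : ℕ, 2 ≤ b → (b : ℝ) ≤ Real.exp ((Real.log N) ^ κ) →
      ∀ s n : ℕ, (b : ℝ) ^ (s + n) ≤ Real.exp ((Real.log N) ^ (1 + δ)) →
      ∀ u v : ℝ, 0 ≤ u → u ≤ v → v ≤ 1 →
        |(cnt (aeval x g) b s n u v : ℝ) - n * (v - u)| ≤ √(n : ℝ) * (Real.log N) ^ ε :=
  Pool.Agent.Q270.AF.values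

end Pool.Agent.Results.MP_0308e6_nt.RootsAtAlmostAllIntegers
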