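import Pool.Agent.Q270.SR.Fin1

/-!
# The discrepancy of the digits of typical algebraic numbers is of the order of the square root

The question asks whether the number of ones among the first `n` binary digits of `√2` is `n/2 + o(n)`.
For a random real number it is `n/2 + O(n ^ (1/2 + ε))`, with Gaussian fluctuations. It is proved here
that typical algebraic numbers behave in this way up to any fixed multiple of `log H` digits, `H` the
height: for all real algebraic numbers `x` of degree `d ≥ 2` and height at most `H`, except for a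
proportion `(log H) ^ (-T)` of them, the sequences `b ^ n x` modulo one, `b ≤ B`, have in all
windows of places `n ≤ A log H` the discrepancy `(log H) ^ (1/2 + ε)` of random numbers, and the sums
of functions of the words of digits obey the central limit theorem. The same discrepancy bound is
proved for the numbers `√p`, or `ω p ^ θ + P(p)`, for the primes `p ≤ N` of a residue class.

The exponential sums over the algebraic numbers ordered by height are those of the starting library
(`Y933.KG.alg_hat`), those over the primes are in `Q270.SP`. High moments of the sums over words of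
about `log log H` digits are compared with those of random numbers.
-/

set_option autoImplicit false

namespace Pool.Agent.Results.MP_0308e6_nt.SquareRootDiscrepancy

open Filter Topology MeasureTheory ProbabilityTheory Polynomial
open Pool.Agent.Q270.SR (AlgS mem_AlgS SA SA_prob good_SA good_of_T disc_all_B mnT1 cvT1 disc1 Disc)
open Pool.Agent.Q270.AA (clt_B)

/-- the real algebraic numbers of degree `d` and height at most `H`: the real roots of the
irreducible integral polynomials of degree `d` with all coefficients at most `H` in absolute value -/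
def AlgNumbers (d H : ℕ) : Set ℝ :=
  {x | ∃ P : ℤ[X], Irreducible P ∧ P.natDegree = d ∧ (∀ i, |P.coeff i| ≤ H) ∧ aeval x P = 0}

/-- the real polynomials `G` with `1 ≤ deg G < d`, whose coefficients (but the constant one) are at
most `H ^ c` and whose leading coefficient is at least `H ^ (-c)`, in absolute value -/
def Moderate (d H : ℕ) (c : ℝ) (G : ℝ[X]) : Prop :=
  1 ≤ G.natDegree ∧ G.natDegree < d ∧ (∀ i, 1 ≤ i → |G.coeff i| ≤ (H : ℝ) ^ c) ∧
    (H : ℝ) ^ (-c) ≤ |G.leadingCoeff|

/-- the primes `p ≤ N` which are congruent to `a` modulo `q` -/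
def Primes (a q N : ℕ) : Set ℕ := {p | p.Prime ∧ p ≡ a [MOD q] ∧ p ≤ N}

/-- the number `ω p ^ θ + P(p)` (for `θ = 1/2`, `ω = 1` and `P = 0` this is `√p`) -/
noncomputable def num (θ ω : ℝ) (P : ℝ[X]) (p : ℕ) : ℝ := ω * (p : ℝ) ^ θ + P.eval (p : ℝ)

/-- the discrepancy of the `L` numbers `b ^ s y, …, b ^ (s + L - 1) y` modulo one is at most `E`: the
number of the `i < L` such that the fractional part of `b ^ (s + i) y` is smaller than `t` differs
from `L t` by at most `E`, for all `0 ≤ t ≤ 1` -/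
def DiscLe (b s L : ℕ) (y E : ℝ) : Prop :=
  ∀ t : ℝ, 0 ≤ t → t ≤ 1 →
    |(({i : ℕ | i < L ∧ Int.fract ((b : ℝ) ^ (s + i) * y) < t}.ncard : ℕ) : ℝ) - L * t| ≤ E

/-- the word of the `k` digits in base `b` of `y` which follow the first `n` digits after the point,
read as an integer between `0` and `b ^ k - 1` -/
noncomputable def word (b k n : ℕ) (y : ℝ) : ℕ :=
  ⌊(b : ℝ) ^ k * Int.fract ((b : ℝ) ^ n * y)⌋₊

/-- the mean of `F` over the words of `w` digits -/
noncomputable def mean (b w : ℕ) (F : ℕ → ℝ) : ℝ := (∑ c ∈ Finset.range (b ^ w), F c) / (b : ℝ) ^ w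

/-- the covariance of the values of `F` at two words of `w` random digits at the distance `h` -/
noncomputable def cov (b w : ℕ) (F : ℕ → ℝ) (h : ℕ) : ℝ :=
  (∑ c ∈ Finset.range (b ^ (w + h)), (F (c / b ^ h) - mean b w F) * (F (c % b ^ w) - mean b w F)) /
    (b : ℝ) ^ (w + h)

/-- the asymptotic variance of the sums of `F` over the words of `w` digits -/
noncomputable def variance (b w : ℕ) (F : ℕ → ℝ) : ℝ :=
  cov b w F 0 + 2 * ∑ h ∈ Finset.Ico 1 w, cov b w F h

lemma AlgNumbers_eq (q H : ℕ) : AlgNumbers (q + 2) H = ((AlgS q H : Finset ℝ) : Set ℝ) := by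
  ext x
  rw [Finset.mem_coe, mem_AlgS]
  rfl

open Classical in
lemma ncard_alg (q H : ℕ) (p : ℝ → Prop) : ({x ∈ AlgNumbers (q + 2) H | p x}.ncard : ℕ) =
    ((AlgS q H).filter p).card := by
  have h : {x ∈ AlgNumbers (q + 2) H | p x} = (((AlgS q H).filter p : Finset ℝ) : Set ℝ) := by
    rw [Finset.coe_filter, AlgNumbers_eq]
    rfl
  rw [h, Set.ncard_coe_finset]

lemma Primes_eq (a q N : ℕ) :
    Primes a q N = ((Pool.Agent.Q270.SP.PrA a q N : Finset ℕ) : Set ℕ) := by
  ext p
  simp only [Primes, Pool.Agent.Q270.SP.PrA, Set.mem_ofPred_eq, Finset.coe_filter, Finset.mem_Ioc]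
  constructor
  · rintro ⟨h1, h2, h3⟩
    exact ⟨⟨h1.pos, h3⟩, h1, h2⟩
  · rintro ⟨⟨_, h3⟩, h1, h2⟩
    exact ⟨h1, h2, h3⟩

open Classical in
lemma ncard_primes (a q N : ℕ) (p : ℕ → Prop) : ({m ∈ Primes a q N | p m}.ncard : ℕ) =
    ((Pool.Agent.Q270.SP.PrA a q N).filter p).card := by
  have h : {m ∈ Primes a q N | p m} =
      (((Pool.Agent.Q270.SP.PrA a q N).filter p : Finset ℕ) : Set ℕ) := by
    rw [Finset.coe_filter, Primes_eq]
    rfl
  rw [h, Set.ncard_coe_finset]

/-- Let `d ≥ 2`, `B`, `A`, `κ > 0` be given. There is `c > 0` such that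

(1) for all `ε > 0` and `T`, all large `H` and all polynomials `G` in `Moderate d H c` (for instance
`G = X`): all real algebraic numbers `x` of degree `d` and height at most `H`, except for a proportion
of at most `(log H) ^ (-T)` of them, are such that for all bases `2 ≤ b ≤ B` and all windows of places
with `b ^ s ≥ H ^ κ` and `s + L ≤ A log H`, the numbers `b ^ (s + i) G(x)`, `i < L`, have a discrepancy
of at most `(log H) ^ (1/2 + ε)`;

(2) for every function `F` of the words of `w` digits in base `b ≤ B` with positive asymptotic variance,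
for windows of places with `b ^ (s_H) ≥ H ^ κ` and `s_H + L_H ≤ A log H`, whose lengths `L_H` tend to
infinity, the sum of `F` over the words of the digits of `G_H(x)` in the window is asymptotically
normal with the mean `L_H mean` and the variance `L_H variance`, for a random real algebraic
number `x` of degree `d` and height at most `H`.

(3) Let `θ > 0` be a real number which is not an integer, for instance `1/2`, let `a` and `q` be
coprime, and let `D`, `W`, `A`, `B`, `T` and `ε > 0` be given. For all large `N`, all real `ω` with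
`1 ≤ |ω| ≤ N ^ W` and all real polynomials `P` of degree at most `D`: all primes `p ≤ N`, `p ≡ a`
modulo `q`, except for a proportion of at most `(log N) ^ (-T)` of them, are such that for
`y = ω p ^ θ + P(p)`, for all bases `2 ≤ b ≤ B` and all `s`, `L` with `s + L ≤ A log N`, the numbers
`b ^ (s + i) y`, `i < L`, have a discrepancy of at most `(log N) ^ (1/2 + ε)`. -/
theorem result :
    (∀ (d B : ℕ) (A κ : ℝ), 2 ≤ d → 0 < κ → ∃ c : ℝ, 0 < c ∧
      (∀ ε T : ℝ, 0 < ε → ∃ H₀ : ℕ, ∀ H : ℕ, H₀ ≤ H → (AlgNumbers d H).Finite ∧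
        (AlgNumbers d H).Nonempty ∧ ∀ G : ℝ[X], Moderate d H c G →
        (({x ∈ AlgNumbers d H | ¬ ∀ b s L : ℕ, 2 ≤ b → b ≤ B → (H : ℝ) ^ κ ≤ (b : ℝ) ^ s →
            (s : ℝ) + L ≤ A * Real.log H →
            DiscLe b s L (G.eval x) (Real.log H ^ (1 / 2 + ε))}.ncard : ℕ) : ℝ) ≤
          Real.log H ^ (-T) * ((AlgNumbers d H).ncard : ℝ)) ∧
      (∀ (b w : ℕ) (F : ℕ → ℝ), 2 ≤ b → b ≤ B → 1 ≤ w → 0 < variance b w F →
        ∀ (G : ℕ → ℝ[X]) (s L : ℕ → ℕ), (∀ᶠ H : ℕ in atTop, Moderate d H c (G H)) →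
        Tendsto L atTop atTop → (∀ᶠ H : ℕ in atTop, (H : ℝ) ^ κ ≤ (b : ℝ) ^ s H) →
        (∀ᶠ H : ℕ in atTop, (s H : ℝ) + L H ≤ A * Real.log H) → ∀ t : ℝ,
        Tendsto (fun H : ℕ => (({x ∈ AlgNumbers d H |
            ∑ i ∈ Finset.range (L H), F (word b w (s H + i) ((G H).eval x)) ≤
              L H * mean b w F + t * √(variance b w F * L H)}.ncard : ℕ) : ℝ) /
            ((AlgNumbers d H).ncard : ℝ)) atTop (𝓝 ((gaussianReal 0 1).real (Set.Iic t))))) ∧
    (∀ (θ : ℝ), 0 < θ → (∀ m : ℕ, θ ≠ m) → ∀ a q : ℕ, 1 ≤ q → a.Coprime q →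
      ∀ (D B : ℕ) (W A T ε : ℝ), 0 < ε → ∃ N₀ : ℕ, ∀ N : ℕ, N₀ ≤ N → ∀ (ω : ℝ) (P : ℝ[X]),
        1 ≤ |ω| → |ω| ≤ (N : ℝ) ^ W → P.natDegree ≤ D →
        (({p ∈ Primes a q N | ¬ ∀ b s L : ℕ, 2 ≤ b → b ≤ B → (s : ℝ) + L ≤ A * Real.log N →
            DiscLe b s L (num θ ω P p) (Real.log N ^ (1 / 2 + ε))}.ncard : ℕ) : ℝ) ≤
          Real.log N ^ (-T) * ((Primes a q N).ncard : ℝ)) := by
  classical
  refine ⟨?_, ?_⟩
  · intro d B A κ hd hκ
    obtain ⟨q, rfl⟩ : ∃ q, d = q + 2 := ⟨d - 2, by omega⟩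
    set Am : ℝ := (|A| + |A + 1|) * Real.log (max B 2) with hAm
    have hAm0 : 0 ≤ Am := by
      have : 0 ≤ Real.log (max (B : ℝ) 2) :=
        Real.log_nonneg (one_le_two.trans (le_max_right _ _))
      positivity
    obtain ⟨c, hc, hG, H1, hH1⟩ := good_SA q κ Am hκ hAm0
    have hmod : ∀ H (G : ℝ[X]), Moderate (q + 2) H c G → Pool.Agent.Q270.SR.Moderate q H c G := by
      rintro H G ⟨h1, h2, h3, h4⟩
      exact ⟨h1, by omega, h3, h4⟩
    refine ⟨c, hc, ?_, ?_⟩
    · intro ε T hε
      obtain ⟨M0, hM0⟩ := disc_all_B (ι := ℝ) (SA_prob q c) hG le_rfl B A T ε hε (by rw [hAm])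
      refine ⟨max M0 H1, fun H hH => ?_⟩
      have hne := hH1 H (le_of_max_le_right hH)
      refine ⟨?_, ?_, ?_⟩
      · rw [AlgNumbers_eq]
        exact Finset.finite_toSet _
      · rw [AlgNumbers_eq]
        exact hne
      · intro G hGm
        have h1 := hM0 H (le_of_max_le_left hH) (AlgS q H) (fun x _ => G.eval x) hne
          ⟨hne, G, hmod H G hGm, rfl⟩
        rw [ncard_alg, AlgNumbers_eq, Set.ncard_coe_finset, mul_comm (Real.log (H : ℝ) ^ (-T))]
        refine le_trans (Nat.cast_le.2 (Finset.card_le_card fun x hx => ?_)) h1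
        simp only [Finset.mem_filter] at hx ⊢
        refine ⟨hx.1, fun h2 => hx.2 ?_⟩
        intro b s L hb hbB hs hsL t ht0 ht1
        exact disc1 (h2 (fun _ => b) (fun _ => ⟨hb, hbB⟩) (fun _ => s) L (fun _ => hs)
          (fun _ => hsL)) t ht0 ht1
    · intro b w F hb hbB hw hF G s L hGm hL hs hsL t
      have hb1 : ∀ _j : Fin 1, 1 ≤ b := fun _ => by omega
      have hvar : Pool.Agent.Y951.TU.cvT (fun _ : Fin 1 => b) w (fun c => F (c 0)) 0 +
          2 * ∑ h ∈ Finset.Ico 1 w,
            Pool.Agent.Y951.TU.cvT (fun _ : Fin 1 => b) w (fun c => F (c 0)) h = variance b w F := by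
        simp only [cvT1]
        rfl
      have key := clt_B (ι := ℝ) (SA_prob q c) hG (b := fun _ => b) hb1 hw (fun c => F (c 0))
        (by rw [hvar]; exact hF) A (B1 := max B 2) (one_le_two.trans (le_max_right _ _))
        (fun _ => le_trans (by exact_mod_cast hbB) (le_max_left _ _)) (by rw [hAm])
        (fun H => AlgS q H) (fun H x _ => (G H).eval x) (by
          filter_upwards [hGm, eventually_ge_atTop H1] with H h1 h2
          exact ⟨hH1 H h2, hH1 H h2, G H, hmod H _ h1, rfl⟩) (fun H _ => s H) L le_rfl hL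
        (by filter_upwards [hs] with H h1 _ using h1)
        (by filter_upwards [hsL] with H h1 _ using h1) t
      refine key.congr fun H => ?_
      rw [ncard_alg, AlgNumbers_eq, Set.ncard_coe_finset]
      congr 2
      apply congrArg Finset.card
      refine Finset.filter_congr fun x _ => ?_
      rw [hvar, mnT1, sub_le_iff_le_add, add_comm (L H * mean b w F)]
      rfl
  · intro θ hθ hθ' a q hq haq D B W A T ε hε
    obtain ⟨M1, hM1⟩ := eventually_atTop.1 ((Pool.Agent.Q270.SP.PrA_many a q hq haq (1 / 2)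
      (by norm_num)).and (eventually_ge_atTop 1))
    have hne : ∀ N : ℕ, M1 ≤ N → (Pool.Agent.Q270.SP.PrA a q N).Nonempty := fun N hN => by
      obtain ⟨h1, h2⟩ := hM1 N hN
      rw [← Finset.card_pos]
      have h3 : (0 : ℝ) < (N : ℝ) ^ (1 - (1 / 2 : ℝ)) := by
        have : (0 : ℝ) < N := by exact_mod_cast h2
        positivity
      exact_mod_cast h3.trans_le h1
    have hT : Pool.Agent.Q270.SP.GoodT 1 (Pool.Agent.Q270.SP.SV (fun _ : Fin 1 => θ) D W
        (Pool.Agent.Q270.SP.PrA a q)) := by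
      refine Pool.Agent.Q270.SP.good_V W (Pool.Agent.Q270.SP.PrA a q)
        (fun ι hι => Pool.Agent.Q270.SP.PrA_many a q hq haq ι hι) fun A' hA' => ?_
      obtain ⟨τ, hτ, -, x₀, hx₀⟩ := Pool.Agent.Q270.SP.class_sum (r := 1) (d := D)
        (θ := fun _ => θ) (fun _ => hθ) (fun _ => hθ')
        (fun i j _ => Subsingleton.elim i j) A' hA'
      exact ⟨τ, hτ, x₀, fun X hX f hf1 hf2 Q hQ => hx₀ X hX f hf1 hf2 Q hQ a q hq⟩
    set Am : ℝ := (|A| + |A + 1|) * Real.log (max B 2) with hAm
    have hAm0 : 0 ≤ Am := by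
      have : 0 ≤ Real.log (max (B : ℝ) 2) :=
        Real.log_nonneg (one_le_two.trans (le_max_right _ _))
      positivity
    have hG := good_of_T hT 0 Am hAm0
    obtain ⟨M0, hM0⟩ := disc_all_B (ι := ℕ) (Pool.Agent.Q270.SP.SV_prob (fun _ : Fin 1 => θ) D W
      (Pool.Agent.Q270.SP.PrA a q)) hG le_rfl B A T ε hε (by rw [hAm])
    refine ⟨max M0 M1, fun N hN ω P hω1 hω2 hP => ?_⟩
    have h1 := hM0 N (le_of_max_le_left hN) (Pool.Agent.Q270.SP.PrA a q N)
      (fun p _ => num θ ω P p) (hne N (le_of_max_le_right hN))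
      ⟨hne N (le_of_max_le_right hN), fun _ => ω, fun _ => P, fun _ => ⟨hω1, hω2⟩, fun _ => hP, rfl⟩
    rw [ncard_primes, Primes_eq, Set.ncard_coe_finset, mul_comm (Real.log (N : ℝ) ^ (-T))]
    refine le_trans (Nat.cast_le.2 (Finset.card_le_card fun p hp => ?_)) h1
    simp only [Finset.mem_filter] at hp ⊢
    refine ⟨hp.1, fun h2 => hp.2 ?_⟩
    intro b s L hb hbB hsL t ht0 ht1
    refine disc1 (h2 (fun _ => b) (fun _ => ⟨hb, hbB⟩) (fun _ => s) L (fun _ => ?_)
      (fun _ => hsL)) t ht0 ht1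
    rw [Real.rpow_zero]
    exact one_le_pow₀ (by exact_mod_cast (by omega : 1 ≤ b))

end Pool.Agent.Results.MP_0308e6_nt.SquareRootDiscrepancy
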